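import Pool.Agent.Helper96.EL.Goals

set_option autoImplicit false

/-!
# MP_e44225_nt: a point with `2P` not near the origin (packet EL-GOODX)
-/

namespace Pool.Agent.Helper53.EL

open Pool.Agent.Helper96.EL

universe u

/-- PACKET GOODX. -/
theorem goodx : BND.{u} → GOODX.{u} := by
  intro hB F _ _ a W _ R
  obtain ⟨h1, R₀, C, hR₀, hC, hpsi, hphi⟩ := hB F a W
  set R1 : ℝ := max R 0 with hR1
  have hR1R : R ≤ R1 := le_max_left _ _
  have hR10 : 0 ≤ R1 := le_max_right _ _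
  set R' : ℝ := max R₀ (2 * (R1 * C)) with hR'
  obtain ⟨κ, hκ, hκx⟩ := h1 R'
  refine ⟨R', √(κ / (1 + R1)), Real.sqrt_pos.2 (by positivity), ?_⟩
  intro P hPP hPR
  have hP : P ≠ 0 := by
    rintro rfl
    exact hPP (add_zero 0)
  have hY : Yv P ≠ 0 := fun h => hPP (two_torsion hP h)
  have hd := (dbl_formula hP hY).2
  have hle : a (phi W (xv P)) ≤ R1 * a (psi W (xv P)) := by
    rw [← hd, map_mul]
    exact mul_le_mul_of_nonneg_right (hPR.trans hR1R) (a.nonneg _)
  have hx : a (xv P) ≤ R' := by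
    by_contra hlt
    push Not at hlt
    have h2 : R₀ ≤ a (xv P) := (le_max_left _ _).trans hlt.le
    have h3 : 1 ≤ a (xv P) := hR₀.trans h2
    have h4 := hphi (xv P) h2
    have h5 := hpsi (xv P) h3
    have h6 : 2 * (R1 * C) < a (xv P) := lt_of_le_of_lt (le_max_right _ _) hlt
    have h7 : R1 * a (psi W (xv P)) ≤ R1 * (C * a (xv P) ^ 3) :=
      mul_le_mul_of_nonneg_left h5 hR10
    have h8 : 0 < a (xv P) ^ 3 := by positivity
    have h9 : 2 * (R1 * C) * a (xv P) ^ 3 < a (xv P) * a (xv P) ^ 3 :=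
      mul_lt_mul_of_pos_right h6 h8
    nlinarith only [h4, h7, h9, hle]
  refine ⟨hx, ?_⟩
  have hk := hκx (xv P) hx
  have hsq : a (psi W (xv P)) = a (Yv P) ^ 2 := by
    rw [← Yv_sq hP, map_pow]
  apply Real.sqrt_le_iff.2
  refine ⟨a.nonneg _, ?_⟩
  rw [div_le_iff₀ (by positivity), ← hsq]
  linarith only [hk, hle]

end Pool.Agent.Helper53.EL
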